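import Pool.Agent.MP_b2c033_nt.U.Final
import Pool.Agent.MP_b2c033_nt.U.ExCond

/-! An elliptic curve over the rationals that is parametrized by modular units of some level is
parametrized by modular units of level equal to its conductor. -/

namespace Pool.Agent.Results.MP_b2c033_nt.AtConductor

open Pool.Agent.MP_b2c033_nt.U

/-- The hypothesis on the conductor can always be met. -/
theorem exists_conductor (E : WeierstrassCurve ℚ) [E.IsElliptic] : ∃ N, IsConductor E N :=
  exists_isConductor E

theorem result (E : WeierstrassCurve ℚ) [E.IsElliptic] (N N' : ℕ) (hN : IsConductor E N)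
    (hN' : 0 < N') (h : Param E N') : Param E N :=
  goal E N N' hN hN' h

end Pool.Agent.Results.MP_b2c033_nt.AtConductor
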