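import Pool.Agent.MP_b2c033_nt.H80.Main

namespace Pool.Agent.Results.MP_b2c033_nt.C64

open Pool.Agent.MP_b2c033_nt.H80

theorem result : Param ⟨0, 0, 0, -4, 0⟩ 64 := p64

end Pool.Agent.Results.MP_b2c033_nt.C64
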