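import Pool.Agent.MP_b2c033_nt.H87.All

namespace Pool.Agent.Results.MP_b2c033_nt.FiniteAnyLevel

open Pool.Agent.MP_b2c033_nt.H87

theorem result (E : WeierstrassCurve ℚ) [E.IsElliptic] (M : ℕ) (hM : 0 < M) (h : Param E M) :
    ∃ (C : WeierstrassCurve.VariableChange ℚ) (a b c : ℤ),
      |a| ≤ 1 ∧ |b| ≤ 10 ^ 40 ∧ |c| ≤ 10 ^ 60 ∧ C • E = ⟨0, a, 0, b, c⟩ :=
  finiteness E M hM h

end Pool.Agent.Results.MP_b2c033_nt.FiniteAnyLevel
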