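import Pool.Agent.MP_b2c033_nt.H95.All

namespace Pool.Agent.Results.MP_b2c033_nt.FiniteHyperelliptic

open Polynomial Pool.Agent.MP_b2c033_nt.H87

theorem result (g : ℕ) (hg : 2 ≤ g) : ∃ B : ℕ, ∀ (M : ℕ) (F : ℚ[X]) (x y : LaurentSeries ℚ),
    0 < M → Squarefree F → (F.natDegree = 2 * g + 1 ∨ F.natDegree = 2 * g + 2) →
    x ∈ IntermediateField.adjoin ℚ {f : LaurentSeries ℚ | ∃ u, Reg M u f} →
    y ∈ IntermediateField.adjoin ℚ {f : LaurentSeries ℚ | ∃ u, Reg M u f} →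
    (∀ r : ℚ, x ≠ algebraMap ℚ (LaurentSeries ℚ) r) → y ^ 2 = aeval x F →
    ∃ (G : ℕ → ℤ) (a b c d l : ℚ), a * d - b * c ≠ 0 ∧ l ≠ 0 ∧ (∀ i, |G i| ≤ B) ∧
      ∑ i ∈ Finset.range (2 * g + 3), C (G i : ℚ) * (C a * X + C b) ^ i *
        (C c * X + C d) ^ (2 * g + 2 - i) = C (l ^ 2) * F :=
  Pool.Agent.MP_b2c033_nt.H95.hyp g hg

end Pool.Agent.Results.MP_b2c033_nt.FiniteHyperelliptic
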